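import Mathlib
import Pool.Agent.TH506.APD.Asy
import Pool.Agent.TH506.APD.Sing

set_option autoImplicit false

namespace Pool.Agent.Results.MP_79499b_co.AlmostAllCompositeOrder

open Finset Filter Topology Pool.Agent.TH506.APD Pool.Agent.H152R2 Pool.Agent.H109R2.SIC

/-- Some finite abelian group `G` of order `n ^ 2 + n + 1` contains a planar difference set of order
`n`: a set `D` of `n + 1` elements such that every element `g ≠ 1` has exactly one representation
`g = a * b⁻¹` with `a, b ∈ D`. (These are the Singer parameters for `m = 3`.) -/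
def HasAbelianPlanarDifferenceSet (n : ℕ) : Prop :=
  ∃ (G : Type) (_ : CommGroup G) (_ : Fintype G) (_ : DecidableEq G) (D : Finset G),
    Fintype.card G = n ^ 2 + n + 1 ∧ D.card = n + 1 ∧
    ∀ g : G, g ≠ 1 → ((D ×ˢ D).filter (fun p : G × G => p.1 * p.2⁻¹ = g)).card = 1

lemma isOrd_of {n : ℕ} (h : HasAbelianPlanarDifferenceSet n) : IsOrd n := by
  obtain ⟨G, i1, i2, i3, D, h1, h2, h3⟩ := h
  refine ⟨Additive G, inferInstance, D.map Additive.ofMul.toEmbedding, ⟨?_, ?_, ?_⟩⟩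
  · rw [← h1]
    exact (Nat.card_congr Additive.toMul).trans Nat.card_eq_fintype_card
  · rw [card_map, h2]
  · intro g hg
    have h4 := h3 (Additive.toMul g) (by
      intro he
      apply hg
      exact Additive.toMul.injective he)
    obtain ⟨q, hq⟩ := Finset.card_eq_one.1 h4
    have hmem : ∀ r : G × G, (r.1 ∈ D ∧ r.2 ∈ D) ∧ r.1 * r.2⁻¹ = Additive.toMul g ↔ r = q := by
      intro r
      have h5 : r ∈ ({q} : Finset (G × G)) ↔ r = q := Finset.mem_singleton
      rw [← h5, ← hq, mem_filter, mem_product]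
    have hq' := (hmem q).2 rfl
    refine ⟨(Additive.ofMul q.1, Additive.ofMul q.2), ⟨?_, ?_, ?_⟩, ?_⟩
    · exact Finset.mem_map.2 ⟨q.1, hq'.1.1, rfl⟩
    · exact Finset.mem_map.2 ⟨q.2, hq'.1.2, rfl⟩
    · apply Additive.toMul.injective
      change q.1 / q.2 = Additive.toMul g
      rw [div_eq_mul_inv]
      exact hq'.2
    · rintro ⟨a, b⟩ ⟨ha, hb, hab⟩
      obtain ⟨a', ha', rfl⟩ := Finset.mem_map.1 ha
      obtain ⟨b', hb', rfl⟩ := Finset.mem_map.1 hb
      have h5 : a' * b'⁻¹ = Additive.toMul g := by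
        rw [← hab, ← div_eq_mul_inv]
        rfl
      have h6 := (hmem (a', b')).1 ⟨⟨ha', hb'⟩, h5⟩
      rw [← h6]
      rfl

/-- Singer's theorem for primes -/
lemma of_prime (p : ℕ) (hp : p.Prime) : HasAbelianPlanarDifferenceSet p := by
  have : Fact p.Prime := ⟨hp⟩
  refine ⟨Multiplicative (A3 p), inferInstance, inferInstance, inferInstance,
    (D3 p).map Multiplicative.ofAdd.toEmbedding, ?_, ?_, ?_⟩
  · rw [Fintype.card_multiplicative]; exact card_A3 p
  · rw [card_map]; exact card_D3 p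
  · intro g hg
    rw [← rep_D3 p (Multiplicative.toAdd g) (by
      intro he
      apply hg
      exact Multiplicative.toAdd.injective he)]
    symm
    apply Finset.card_bij (fun q _ => (Multiplicative.ofAdd q.1, Multiplicative.ofAdd q.2))
    · rintro ⟨a, b⟩ hab
      rw [mem_filter, mem_product] at hab
      rw [mem_filter, mem_product]
      refine ⟨⟨Finset.mem_map.2 ⟨a, hab.1.1, rfl⟩, Finset.mem_map.2 ⟨b, hab.1.2, rfl⟩⟩, ?_⟩
      apply Multiplicative.toAdd.injective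
      rw [← hab.2, sub_eq_add_neg]
      rfl
    · rintro ⟨a, b⟩ _ ⟨a', b'⟩ _ h
      exact h
    · rintro ⟨a, b⟩ hab
      rw [mem_filter, mem_product] at hab
      obtain ⟨a', ha', h1⟩ := Finset.mem_map.1 hab.1.1
      obtain ⟨b', hb', h2⟩ := Finset.mem_map.1 hab.1.2
      refine ⟨(a', b'), ?_, ?_⟩
      · rw [mem_filter, mem_product]
        refine ⟨⟨ha', hb'⟩, ?_⟩
        rw [← hab.2]
        simp only at h1 h2
        rw [← h1, ← h2, sub_eq_add_neg]
        rfl
      · simp only at h1 h2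
        rw [← h1, ← h2]
        rfl

/-- Almost all orders `n` of planar difference sets in finite abelian groups of composite order
`n ^ 2 + n + 1` are prime powers: among the `n ≤ X` the proportion of prime powers tends to `1`. -/
theorem result :
    Tendsto (fun X : ℕ =>
      ({n : ℕ | 2 ≤ n ∧ n ≤ X ∧ ¬ (n ^ 2 + n + 1).Prime ∧ HasAbelianPlanarDifferenceSet n ∧
        IsPrimePow n}.ncard : ℝ) /
      ({n : ℕ | 2 ≤ n ∧ n ≤ X ∧ ¬ (n ^ 2 + n + 1).Prime ∧
        HasAbelianPlanarDifferenceSet n}.ncard : ℝ)) atTop (𝓝 1) := by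
  obtain ⟨h1, h2⟩ := asy HasAbelianPlanarDifferenceSet (fun _ h => isOrd_of h) of_prime
  have h3 := h2.div h1 one_ne_zero
  have h4 := (h3.const_sub 1)
  rw [zero_div, sub_zero] at h4
  have hne := h1.eventually_ne one_ne_zero
  refine h4.congr' ?_
  filter_upwards [hne, Filter.eventually_ge_atTop 2] with X hX hX2
  have hfin : ∀ (P : ℕ → Prop), {n : ℕ | 2 ≤ n ∧ n ≤ X ∧ P n}.Finite := fun P =>
    (Set.finite_Icc 0 X).subset (fun n hn => ⟨Nat.zero_le _, hn.2.1⟩)
  have hunion : {n : ℕ | 2 ≤ n ∧ n ≤ X ∧ ¬ (n ^ 2 + n + 1).Prime ∧ HasAbelianPlanarDifferenceSet n} =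
      {n : ℕ | 2 ≤ n ∧ n ≤ X ∧ ¬ (n ^ 2 + n + 1).Prime ∧ HasAbelianPlanarDifferenceSet n ∧
        IsPrimePow n} ∪
      {n : ℕ | 2 ≤ n ∧ n ≤ X ∧ ¬ (n ^ 2 + n + 1).Prime ∧ HasAbelianPlanarDifferenceSet n ∧
        ¬ IsPrimePow n} := by
    ext n
    simp only [Set.mem_ofPred_eq, Set.mem_union]
    tauto
  have hdisj : Disjoint {n : ℕ | 2 ≤ n ∧ n ≤ X ∧ ¬ (n ^ 2 + n + 1).Prime ∧
        HasAbelianPlanarDifferenceSet n ∧ IsPrimePow n}
      {n : ℕ | 2 ≤ n ∧ n ≤ X ∧ ¬ (n ^ 2 + n + 1).Prime ∧ HasAbelianPlanarDifferenceSet n ∧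
        ¬ IsPrimePow n} := by
    rw [Set.disjoint_left]
    intro n h5 h6
    exact h6.2.2.2.2 h5.2.2.2.2
  have hcard := Set.ncard_union_eq hdisj (hfin _) (hfin _)
  rw [← hunion] at hcard
  have hXr : (2 : ℝ) ≤ X := by exact_mod_cast hX2
  have hlog : Real.log X ≠ 0 := (Real.log_pos (by linarith)).ne'
  have hX0 : (X : ℝ) ≠ 0 := by linarith
  have hall : ({n : ℕ | 2 ≤ n ∧ n ≤ X ∧ ¬ (n ^ 2 + n + 1).Prime ∧
        HasAbelianPlanarDifferenceSet n}.ncard : ℝ) ≠ 0 := by
    intro h5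
    apply hX
    simp only [h5, zero_mul, zero_div]
  simp only [Pi.div_apply]
  rw [div_div_div_cancel_right₀ hX0, mul_div_mul_right _ _ hlog, eq_div_iff hall, sub_mul,
    div_mul_cancel₀ _ hall, hcard]
  push_cast
  ring

end Pool.Agent.Results.MP_79499b_co.AlmostAllCompositeOrder
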