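import Mathlib
import Pool.Agent.TH66.SG.Fin2

set_option autoImplicit false

namespace Pool.Agent.Results.MP_79499b_co.EvenDimension

open Filter Topology

/-- Some finite nilpotent group `G` (for instance, some finite abelian group) of order
`(n ^ m - 1) / (n - 1)` contains a difference set `D` with the Singer parameters:
`k = (n ^ (m - 1) - 1) / (n - 1)`, `lambda = (n ^ (m - 2) - 1) / (n - 1)`. -/
def HasNilpotentSingerDifferenceSet (n m : ℕ) : Prop :=
  ∃ (G : Type) (_ : Group G) (_ : Fintype G) (_ : DecidableEq G) (D : Finset G),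
    Group.IsNilpotent G ∧
    Fintype.card G * (n - 1) = n ^ m - 1 ∧ D.card * (n - 1) = n ^ (m - 1) - 1 ∧
    ∀ g : G, g ≠ 1 →
      ((D ×ˢ D).filter (fun p : G × G => p.1 * p.2⁻¹ = g)).card * (n - 1) = n ^ (m - 2) - 1

/-- Let `m ≥ 3`, `A ≥ 2` and `F ≥ 1`, where `m` is even, or `A` is a square and `F` is even (so that
`n ^ m` is a square for `n = A * q ^ F`). Then for almost all primes `q` (all but `o(π(N))` of the
primes `q ≤ N`) no finite nilpotent group contains a difference set with the Singer parameters of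
`(A * q ^ F, m)`. -/
theorem result (m A F : ℕ) (hm : 3 ≤ m) (hA : 2 ≤ A) (hF : 1 ≤ F)
    (h : Even m ∨ (IsSquare A ∧ Even F)) :
    Tendsto (fun N : ℕ =>
      ({q : ℕ | q ≤ N ∧ q.Prime ∧ HasNilpotentSingerDifferenceSet (A * q ^ F) m}.ncard : ℝ) /
        (Nat.primeCounting N : ℝ)) atTop (𝓝 0) := by
  rcases h with h | ⟨⟨a, rfl⟩, f, rfl⟩
  · have h1 := Pool.Agent.TH66.SG.main2 (m := m) (e := 1) (a := A) (f := F) hm le_rfl
      (by rwa [one_mul]) hA hF
    simp only [pow_one] at h1
    exact h1
  · have ha : 2 ≤ a := by nlinarith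
    have h1 := Pool.Agent.TH66.SG.main2 (m := m) (e := 2) (a := a) (f := f) hm (by norm_num)
      (even_two_mul m) ha (by omega)
    have h2 : ∀ q : ℕ, (a * q ^ f) ^ 2 = a * a * q ^ (f + f) := by
      intro q
      ring
    simp only [h2] at h1
    exact h1

end Pool.Agent.Results.MP_79499b_co.EvenDimension
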