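import Mathlib
import Pool.Agent.TH66.SG.EvB

set_option autoImplicit false

namespace Pool.Agent.Results.MP_79499b_co.EveryOrderSquare

/-- Some finite nilpotent group `G` (for instance, some finite abelian group) of order
`(n ^ m - 1) / (n - 1)` contains a difference set `D` with the Singer parameters:
`k = (n ^ (m - 1) - 1) / (n - 1)`, `lambda = (n ^ (m - 2) - 1) / (n - 1)`. -/
def HasNilpotentSingerDifferenceSet (n m : ℕ) : Prop :=
  ∃ (G : Type) (_ : Group G) (_ : Fintype G) (_ : DecidableEq G) (D : Finset G),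
    Group.IsNilpotent G ∧
    Fintype.card G * (n - 1) = n ^ m - 1 ∧ D.card * (n - 1) = n ^ (m - 1) - 1 ∧
    ∀ g : G, g ≠ 1 →
      ((D ×ˢ D).filter (fun p : G × G => p.1 * p.2⁻¹ = g)).card * (n - 1) = n ^ (m - 2) - 1

/-- Let `n ≥ 2` be not a prime power, and let `m₀ ≥ 1` be such that `n ^ m₀` is a perfect square
(any even `m₀`; any `m₀` if `n` is a square). Then there is an odd `t` such that for every odd
multiple `t'` of `t` (with `m₀ t' ≥ 3`) no finite nilpotent group contains a difference set with the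
Singer parameters of `(n, m₀ t')`. -/
theorem result (n : ℕ) (hn : 2 ≤ n) (hpp : ¬ IsPrimePow n) (m₀ : ℕ) (hm₀ : 1 ≤ m₀)
    (hsq : IsSquare (n ^ m₀)) :
    ∃ t : ℕ, Odd t ∧ ∀ t' : ℕ, Odd t' → t ∣ t' → 3 ≤ m₀ * t' →
      ¬ HasNilpotentSingerDifferenceSet n (m₀ * t') :=
  Pool.Agent.TH66.SG.every_square hn hpp hm₀ hsq

end Pool.Agent.Results.MP_79499b_co.EveryOrderSquare
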