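import Mathlib
import Pool.Agent.TH66.SG.Tup5
import Pool.Agent.TH66.SG.Tup6

set_option autoImplicit false

namespace Pool.Agent.Results.MP_79499b_co.PrimeFactorsAlmostAll

open Filter Topology

/-- Some finite group `G` of order `(n ^ m - 1) / (n - 1)`, which is nilpotent (for instance
abelian) if the condition `nil` holds, contains a difference set `D` with the Singer parameters
`k = (n ^ (m - 1) - 1) / (n - 1)` and `lambda = (n ^ (m - 2) - 1) / (n - 1)`. (If `nil` is false, `G`
is an arbitrary finite group.) -/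
def HasSingerDifferenceSet (nil : Prop) (n m : ℕ) : Prop :=
  ∃ (G : Type) (_ : Group G) (_ : Fintype G) (_ : DecidableEq G) (D : Finset G),
    (nil → Group.IsNilpotent G) ∧
    Fintype.card G * (n - 1) = n ^ m - 1 ∧ D.card * (n - 1) = n ^ (m - 1) - 1 ∧
    ∀ g : G, g ≠ 1 →
      ((D ×ˢ D).filter (fun p : G × G => p.1 * p.2⁻¹ = g)).card * (n - 1) = n ^ (m - 2) - 1

/-- Let `m ≥ 3`, `k ≥ 2`, `a ≥ 1` and `e ≥ 1`. For almost all integers `N` with exactly `k` prime
factors (counted with multiplicity; all but a proportion tending to `0` of those up to `X`, as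
`X → ∞`), no finite nilpotent group contains a difference set with the Singer parameters of
`((a * N) ^ e, m)`; if `e * m` is odd, then no finite group at all does. -/
theorem result (m k a e : ℕ) (hm : 3 ≤ m) (hk : 2 ≤ k) (ha : 1 ≤ a) (he : 1 ≤ e) :
    Tendsto (fun X : ℕ =>
      ({N : ℕ | N ≤ X ∧ N.primeFactorsList.length = k ∧
          HasSingerDifferenceSet (Even (e * m)) ((a * N) ^ e) m}.ncard : ℝ) /
        ({N : ℕ | N ≤ X ∧ N.primeFactorsList.length = k}.ncard : ℝ)) atTop (𝓝 0) := by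
  classical
  obtain ⟨k, rfl⟩ : ∃ k', k = k' + 1 + 1 := ⟨k - 2, by omega⟩
  refine Pool.Agent.TH66.SG.density_of_tuples (by omega) _ fun ε hε => ?_
  rcases Nat.even_or_odd (e * m) with h | h
  · obtain ⟨X₀, hX₀⟩ := Pool.Agent.TH66.SG.tup_even k a m e ha hm he h ε hε
    refine ⟨X₀, fun X hX => le_trans ?_ (hX₀ X hX)⟩
    norm_cast
    refine Finset.card_le_card fun l hl => ?_
    rw [Finset.mem_filter] at hl ⊢
    obtain ⟨h1, G, i1, i2, i3, D, h2, h3, h4, h5⟩ := hl
    exact ⟨h1, G, i1, i2, i3, D, h2 h, h3, h4, h5⟩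
  · obtain ⟨X₀, hX₀⟩ := Pool.Agent.TH66.SG.tup_odd k a m e ha hm he h ε hε
    refine ⟨X₀, fun X hX => le_trans ?_ (hX₀ X hX)⟩
    norm_cast
    refine Finset.card_le_card fun l hl => ?_
    rw [Finset.mem_filter] at hl ⊢
    obtain ⟨h1, G, i1, i2, i3, D, h2, h3, h4, h5⟩ := hl
    exact ⟨h1, G, i1, i2, i3, D, h3, h4, h5⟩

end Pool.Agent.Results.MP_79499b_co.PrimeFactorsAlmostAll
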